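import Mathlib
import Pool.Agent.H.MP_5d95cf_gt.Main
import Pool.Agent.H.MP_5d95cf_gt.Charts

/-!
Poisson homeomorphisms map symplectic leaves homeomorphically onto symplectic leaves.
-/

namespace Pool.Agent.Results.MP_5d95cf_gt.LeafPreservation

open Set Filter
open scoped Manifold ContDiff Topology

universe u

/-! ### Definitions used in the statement -/

/-- Smooth real functions on an `n`-dimensional manifold `M`. -/
def IsSmoothFun (n : ℕ) {M : Type u} [TopologicalSpace M]
    [ChartedSpace (EuclideanSpace ℝ (Fin n)) M] (f : M → ℝ) : Prop :=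
  ContMDiff (𝓡 n) 𝓘(ℝ, ℝ) ∞ f

/-- Smooth maps from an `n`-dimensional manifold `M` to itself. -/
def IsSmoothSelfMap (n : ℕ) {M : Type u} [TopologicalSpace M]
    [ChartedSpace (EuclideanSpace ℝ (Fin n)) M] (ψ : M → M) : Prop :=
  ContMDiff (𝓡 n) (𝓡 n) ∞ ψ

/-- The set `C^∞(M)` of smooth real functions on `M`. -/
structure SmoothFun (n : ℕ) (M : Type u) [TopologicalSpace M]
    [ChartedSpace (EuclideanSpace ℝ (Fin n)) M] where
  /-- the function -/
  val : M → ℝ
  smooth : IsSmoothFun n val

/-- A Poisson structure on `M`: a bracket on `C^∞(M)` which is bilinear (linear in the first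
argument and skew-symmetric), a derivation in each argument, and satisfies the Jacobi identity. -/
structure PoissonStructure (n : ℕ) (M : Type u) [TopologicalSpace M]
    [ChartedSpace (EuclideanSpace ℝ (Fin n)) M] where
  /-- the bracket -/
  br : SmoothFun n M → SmoothFun n M → SmoothFun n M
  add : ∀ f g h k : SmoothFun n M, (∀ x, h.val x = f.val x + g.val x) →
    ∀ x, (br h k).val x = (br f k).val x + (br g k).val x
  smul : ∀ (c : ℝ) (f h k : SmoothFun n M), (∀ x, h.val x = c * f.val x) →
    ∀ x, (br h k).val x = c * (br f k).val x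
  skew : ∀ (f g : SmoothFun n M) (x : M), (br f g).val x = -(br g f).val x
  leibniz : ∀ f g h k : SmoothFun n M, (∀ x, h.val x = f.val x * g.val x) →
    ∀ x, (br h k).val x = f.val x * (br g k).val x + g.val x * (br f k).val x
  jacobi : ∀ (f g h : SmoothFun n M) (x : M),
    (br f (br g h)).val x + (br g (br h f)).val x + (br h (br f g)).val x = 0

variable {n : ℕ} {M : Type u} [TopologicalSpace M] [ChartedSpace (EuclideanSpace ℝ (Fin n)) M]

/-- On the interval `[0, T]`, the curve `γ` is an integral curve of the Hamiltonian vector field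
`{·, H}` of the smooth function `H`. -/
def IsTraj (P : PoissonStructure n M) (H : SmoothFun n M) (γ : ℝ → M) (T : ℝ) : Prop :=
  ContinuousOn γ (Icc 0 T) ∧ ∀ f : SmoothFun n M, ∀ t ∈ Icc 0 T,
    HasDerivWithinAt (fun s => f.val (γ s)) ((P.br f H).val (γ t)) (Icc 0 T) t

/-- One can go from `y` to `z` inside `U` along one integral curve of a Hamiltonian vector
field. -/
def Step (P : PoissonStructure n M) (U : Set M) (y z : M) : Prop :=
  ∃ (H : SmoothFun n M) (γ : ℝ → M) (T : ℝ), 0 ≤ T ∧ γ 0 = y ∧ γ T = z ∧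
    (∀ t ∈ Icc 0 T, γ t ∈ U) ∧ IsTraj P H γ T

/-- One can go from `y` to `z` inside `U` along finitely many integral curves of Hamiltonian
vector fields. -/
def Reach (P : PoissonStructure n M) (U : Set M) : M → M → Prop :=
  Relation.ReflTransGen (Step P U)

theorem Reach.mono {P : PoissonStructure n M} {U V : Set M} (hUV : U ⊆ V) {y z : M}
    (h : Reach P U y z) : Reach P V y z := by
  induction h with
  | refl => exact Relation.ReflTransGen.refl
  | tail _ hs ih =>
    obtain ⟨H, γ, T, h0, h3, h4, h5, h6⟩ := hs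
    exact ih.tail ⟨H, γ, T, h0, h3, h4, fun t ht => hUV (h5 t ht), h6⟩

/-- Symplectic leaves: the sets of all points which can be reached from a given point along
finitely many integral curves of Hamiltonian vector fields. -/
def IsLeaf (P : PoissonStructure n M) (L : Set M) : Prop := ∃ x, L = {y | Reach P univ x y}

/-- The leaf topology of `M`: a set `s` is open if with every point `z` it contains, for some open
`U` around `z`, all points which can be reached from `z` inside `U` along finitely many integral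
curves of Hamiltonian vector fields. -/
@[reducible] def leafTop (P : PoissonStructure n M) : TopologicalSpace M where
  IsOpen s := ∀ z ∈ s, ∃ U : Set M, IsOpen U ∧ z ∈ U ∧ ∀ y, Reach P U z y → y ∈ s
  isOpen_univ := fun _ _ => ⟨univ, isOpen_univ, mem_univ _, fun _ _ => mem_univ _⟩
  isOpen_inter := by
    intro s t hs ht z hz
    obtain ⟨U, hU, hzU, h1⟩ := hs z hz.1
    obtain ⟨V, hV, hzV, h2⟩ := ht z hz.2
    exact ⟨U ∩ V, hU.inter hV, ⟨hzU, hzV⟩, fun y hy =>
      ⟨h1 y (hy.mono inter_subset_left), h2 y (hy.mono inter_subset_right)⟩⟩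
  isOpen_sUnion := by
    intro S hS z hz
    obtain ⟨s, hs, hzs⟩ := hz
    obtain ⟨U, hU, hzU, h1⟩ := hS s hs z hzs
    exact ⟨U, hU, hzU, fun y hy => ⟨s, hs, h1 y hy⟩⟩

/-- The leaf topology on a leaf `L` (the restriction of the leaf topology of `M`). -/
@[reducible] def leafTopOn (P : PoissonStructure n M) (L : Set M) : TopologicalSpace L :=
  (leafTop P).induced Subtype.val

/-- Poisson diffeomorphisms: `ψ` and its inverse are smooth and `{f ∘ ψ, g ∘ ψ} = {f, g} ∘ ψ` for
all smooth `f`, `g`. -/
def IsPoissonDiffeo (P : PoissonStructure n M) (ψ : M ≃ₜ M) : Prop :=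
  IsSmoothSelfMap n ψ ∧ IsSmoothSelfMap n ψ.symm ∧
    ∀ f g f' g' : SmoothFun n M, (∀ x, f'.val x = f.val (ψ x)) → (∀ x, g'.val x = g.val (ψ x)) →
      ∀ x, (P.br f' g').val x = (P.br f g).val (ψ x)

/-- Poisson homeomorphisms: homeomorphisms which are limits of a sequence of Poisson
diffeomorphisms, uniformly on compact sets (that is, in the compact-open topology of
`C(M, M)`). -/
def IsPoissonHomeo (P : PoissonStructure n M) (φ : M ≃ₜ M) : Prop :=
  ∃ ψ : ℕ → M ≃ₜ M, (∀ k, IsPoissonDiffeo P (ψ k)) ∧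
    Tendsto (fun k => (ψ k : C(M, M))) atTop (𝓝 (φ : C(M, M)))

/-- On the ball of radius `ε`, the map `c` is smooth, and `A` is a smooth left inverse of it (so
`c` is an injective immersion there). -/
def IsSmoothParam (n : ℕ) {M : Type u} [TopologicalSpace M]
    [ChartedSpace (EuclideanSpace ℝ (Fin n)) M] {m : ℕ} (ε : ℝ) (c : (Fin m → ℝ) → M)
    (A : M → Fin m → ℝ) : Prop :=
  ContMDiffOn 𝓘(ℝ, Fin m → ℝ) (𝓡 n) ∞ c (Metric.ball 0 ε) ∧
    (∀ i, IsSmoothFun n fun p => A p i) ∧ ∀ v ∈ Metric.ball 0 ε, A (c v) = v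

/-- The tangent vector `dc(v)(w)` at `c v`, as a functional on smooth functions. -/
noncomputable def velocity {m : ℕ} (c : (Fin m → ℝ) → M) (v w : Fin m → ℝ)
    (f : SmoothFun n M) : ℝ :=
  fderiv ℝ (fun u => f.val (c u)) v w

/-- The value at `p` of the Hamiltonian vector field `{·, H}`, as a functional on smooth
functions. -/
def hamAt (P : PoissonStructure n M) (H : SmoothFun n M) (p : M) (f : SmoothFun n M) : ℝ :=
  (P.br f H).val p

/-- At the points of the ball of radius `ε`, the tangent vectors of `c` are exactly the values of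
the Hamiltonian vector fields. -/
def TangentToHam (P : PoissonStructure n M) {m : ℕ} (ε : ℝ) (c : (Fin m → ℝ) → M) : Prop :=
  ∀ v ∈ Metric.ball (0 : Fin m → ℝ) ε,
    (range fun w => velocity (n := n) c v w) = range fun H => hamAt P H (c v)

/-- On the ball of radius `ε`, the map `c` is an open embedding into `L` with the leaf topology. -/
def IsLeafOpenEmb (P : PoissonStructure n M) (L : Set M) {m : ℕ} (ε : ℝ)
    (c : (Fin m → ℝ) → M) : Prop :=
  ∃ hc : ∀ v ∈ Metric.ball (0 : Fin m → ℝ) ε, c v ∈ L,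
    @Topology.IsOpenEmbedding (Metric.ball (0 : Fin m → ℝ) ε) L _ (leafTopOn P L)
      (fun v => ⟨c v, hc v v.2⟩)

/-- `L`, with the leaf topology, is an immersed submanifold of `M` tangent to the characteristic
distribution: around each point `x` of `L` there is a smooth parametrization `c` of a neighbourhood
of `x` in `L` by a ball of some `ℝ^m`, which is an open embedding for the leaf topology of `L`,
has a smooth left inverse `A` (so it is an immersion), and whose tangent vectors at `c v` are
exactly the values at `c v` of the Hamiltonian vector fields. -/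
def IsIntegralLeaf (P : PoissonStructure n M) (L : Set M) : Prop :=
  ∀ x ∈ L, ∃ (m : ℕ) (ε : ℝ) (c : (Fin m → ℝ) → M) (A : M → Fin m → ℝ), 0 < ε ∧ c 0 = x ∧
    IsSmoothParam n ε c A ∧ TangentToHam P ε c ∧ IsLeafOpenEmb P L ε c

/-! ### Translation to the bundled definitions of the helper modules -/

/-- bundling -/
noncomputable def toSm (f : SmoothFun n M) : H.MP_5d95cf_gt.Sm n M := ⟨f.val, f.smooth⟩

/-- unbundling -/
noncomputable def ofSm (f : H.MP_5d95cf_gt.Sm n M) : SmoothFun n M := ⟨f, f.contMDiff⟩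

theorem toSm_ofSm (f : H.MP_5d95cf_gt.Sm n M) : toSm (ofSm f) = f := rfl

theorem ofSm_toSm (f : SmoothFun n M) : ofSm (toSm f) = f := rfl

theorem SmoothFun.ext {f g : SmoothFun n M} (h : ∀ x, f.val x = g.val x) : f = g := by
  cases f
  cases g
  congr
  exact funext h

/-- The bundled Poisson structure. -/
noncomputable def bundle (P : PoissonStructure n M) : H.MP_5d95cf_gt.PoissonStructure n M where
  br := LinearMap.mk₂ ℝ (fun f g => toSm (P.br (ofSm f) (ofSm g)))
    (by
      intro f g k
      apply ContMDiffMap.ext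
      intro x
      exact P.add (ofSm f) (ofSm g) (ofSm (f + g)) (ofSm k) (fun _ => rfl) x)
    (by
      intro c f k
      apply ContMDiffMap.ext
      intro x
      exact P.smul c (ofSm f) (ofSm (c • f)) (ofSm k) (fun _ => rfl) x)
    (by
      intro f g k
      apply ContMDiffMap.ext
      intro x
      show (P.br (ofSm f) (ofSm (g + k))).val x
        = (P.br (ofSm f) (ofSm g)).val x + (P.br (ofSm f) (ofSm k)).val x
      rw [P.skew, P.add (ofSm g) (ofSm k) (ofSm (g + k)) (ofSm f) (fun _ => rfl) x,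
        P.skew (ofSm f) (ofSm g), P.skew (ofSm f) (ofSm k)]
      ring)
    (by
      intro c f k
      apply ContMDiffMap.ext
      intro x
      show (P.br (ofSm f) (ofSm (c • k))).val x = c * (P.br (ofSm f) (ofSm k)).val x
      rw [P.skew, P.smul c (ofSm k) (ofSm (c • k)) (ofSm f) (fun _ => rfl) x,
        P.skew (ofSm f) (ofSm k)]
      ring)
  skew := by
    intro f g
    apply ContMDiffMap.ext
    intro x
    exact P.skew (ofSm f) (ofSm g) x
  leibniz := by
    intro f g h
    apply ContMDiffMap.ext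
    intro x
    exact P.leibniz (ofSm f) (ofSm g) (ofSm (f * g)) (ofSm h) (fun _ => rfl) x
  jacobi := by
    intro f g h
    apply ContMDiffMap.ext
    intro x
    exact P.jacobi (ofSm f) (ofSm g) (ofSm h) x

theorem bundle_br (P : PoissonStructure n M) (f g : H.MP_5d95cf_gt.Sm n M) :
    (bundle P).br f g = toSm (P.br (ofSm f) (ofSm g)) := rfl

theorem step_iff (P : PoissonStructure n M) (U : Set M) (y z : M) :
    H.MP_5d95cf_gt.Step (bundle P) U y z ↔ Step P U y z := by
  constructor
  · rintro ⟨H, γ, T, h0, h1, h2, h3, h4, h5⟩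
    exact ⟨ofSm H, γ, T, h0, h1, h2, h3, h4, fun f t ht => h5 (toSm f) t ht⟩
  · rintro ⟨H, γ, T, h0, h1, h2, h3, h4, h5⟩
    exact ⟨toSm H, γ, T, h0, h1, h2, h3, h4, fun f t ht => h5 (ofSm f) t ht⟩

theorem reach_iff (P : PoissonStructure n M) (U : Set M) (y z : M) :
    H.MP_5d95cf_gt.Reach (bundle P) U y z ↔ Reach P U y z := by
  have h : H.MP_5d95cf_gt.Step (bundle P) U = Step P U := by
    funext a b
    exact propext (step_iff P U a b)
  show Relation.ReflTransGen (H.MP_5d95cf_gt.Step (bundle P) U) y z ↔ _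
  rw [h]
  rfl

theorem isLeaf_iff (P : PoissonStructure n M) (L : Set M) :
    H.MP_5d95cf_gt.IsLeaf (bundle P) L ↔ IsLeaf P L := by
  simp only [H.MP_5d95cf_gt.IsLeaf, IsLeaf, reach_iff]

theorem leafTop_eq (P : PoissonStructure n M) :
    H.MP_5d95cf_gt.leafTop (bundle P) = leafTop P := by
  apply TopologicalSpace.ext
  funext s
  show (∀ z ∈ s, ∃ U : Set M, IsOpen U ∧ z ∈ U ∧
      ∀ y, H.MP_5d95cf_gt.Reach (bundle P) U z y → y ∈ s)
    = (∀ z ∈ s, ∃ U : Set M, IsOpen U ∧ z ∈ U ∧ ∀ y, Reach P U z y → y ∈ s)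
  simp only [reach_iff]

theorem leafTopOn_eq (P : PoissonStructure n M) (L : Set M) :
    H.MP_5d95cf_gt.leafTopOn (bundle P) L = leafTopOn P L := by
  show (H.MP_5d95cf_gt.leafTop (bundle P)).induced Subtype.val = _
  rw [leafTop_eq]

theorem isPoissonHomeo_of (P : PoissonStructure n M) {φ : M ≃ₜ M} (h : IsPoissonHomeo P φ) :
    H.MP_5d95cf_gt.IsPoissonHomeo (bundle P) φ := by
  obtain ⟨ψ, hψ, hlim⟩ := h
  refine ⟨fun k => ⟨(ψ k).toEquiv, (hψ k).1, (hψ k).2.1⟩, fun k f g => ?_, hlim⟩
  apply ContMDiffMap.ext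
  intro x
  exact (hψ k).2.2 (ofSm f) (ofSm g) _ _ (fun _ => rfl) (fun _ => rfl) x

theorem isIntegralLeaf_of (P : PoissonStructure n M) {L : Set M}
    (h : H.MP_5d95cf_gt.IsIntegralLeaf (bundle P) L) : IsIntegralLeaf P L := by
  intro x hx
  obtain ⟨m, ε, c, A, hε, hc0, ⟨hs1, hs2, hs3⟩, hT, hcL, hE⟩ := h x hx
  refine ⟨m, ε, c, A, hε, hc0, ⟨hs1, ?_, hs3⟩, ?_, hcL, ?_⟩
  · intro i
    exact contMDiff_pi_space.mp hs2 i
  · intro v hv
    have h1 := hT v hv
    ext D
    constructor
    · rintro ⟨w, rfl⟩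
      have h2 : H.MP_5d95cf_gt.velocity c v w ∈ range
          (fun K => H.MP_5d95cf_gt.hamAt (bundle P) K (c v)) := by
        rw [← h1]
        exact ⟨w, rfl⟩
      obtain ⟨K, hK⟩ := h2
      refine ⟨ofSm K, ?_⟩
      funext f
      exact congrFun hK (toSm f)
    · rintro ⟨K, rfl⟩
      have h2 : H.MP_5d95cf_gt.hamAt (bundle P) (toSm K) (c v) ∈
          range (H.MP_5d95cf_gt.velocity c v) := by
        rw [h1]
        exact ⟨toSm K, rfl⟩
      obtain ⟨w, hw⟩ := h2
      refine ⟨w, ?_⟩
      funext f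
      exact congrFun hw (toSm f)
  · rw [← leafTopOn_eq]
    exact hE

/-! ### The main result -/

/-- **Main result.** Let `φ` be a Poisson homeomorphism of a smooth (Hausdorff) manifold `M` with
a Poisson structure `P`, and let `L` be a symplectic leaf. Then `φ '' L` is a symplectic leaf and
the restriction `L → φ '' L` of `φ` is a homeomorphism for the leaf topologies.

The last two parts identify these topologies: with the leaf topology, `L` and `φ '' L` are
immersed submanifolds of `M` whose tangent spaces are the values of the Hamiltonian vector fields,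
so the leaf topologies are the manifold topologies of these leaves. -/
theorem result {n : ℕ} {M : Type u} [TopologicalSpace M] [T2Space M]
    [ChartedSpace (EuclideanSpace ℝ (Fin n)) M] [IsManifold (𝓡 n) ∞ M]
    (P : PoissonStructure n M) (φ : M ≃ₜ M) (hφ : IsPoissonHomeo P φ) (L : Set M)
    (hL : IsLeaf P L) :
    IsLeaf P (φ '' L) ∧
      @IsHomeomorph L (φ '' L) (leafTopOn P L) (leafTopOn P (φ '' L)) (φ.toEquiv.image L) ∧
      IsIntegralLeaf P L ∧ IsIntegralLeaf P (φ '' L) := by
  have hint : ∀ L : Set M, IsLeaf P L → IsIntegralLeaf P L := fun L hL =>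
    isIntegralLeaf_of P (H.MP_5d95cf_gt.isIntegralLeaf _ L ((isLeaf_iff P L).mpr hL))
  have h := H.MP_5d95cf_gt.main (bundle P) φ (isPoissonHomeo_of P hφ) L
    ((isLeaf_iff P L).mpr hL)
  rw [isLeaf_iff, leafTopOn_eq, leafTopOn_eq] at h
  exact ⟨h.1, h.2, hint L hL, hint _ h.1⟩

end Pool.Agent.Results.MP_5d95cf_gt.LeafPreservation
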